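import Pool.Agent.Results.MP_f5a5f7_nt.FewExceptions
import Pool.Agent.Y854.GM.Win

/-!
# The weak abc inequality over number fields without exceptions in windows of heights

Let `v ≥ 1` be a sequence with exponent of convergence at most `τ` (for `v_n = n ^ a` this is `1 / a`, for `v_n = b ^ n`
or `n!` it is `0`), `K` a number field of degree `d`, `κ > 1`, `c` real and `0 ≤ θ < 1`. For all `α > 0` outside a set of
Hausdorff dimension at most `(min (4 / (7 κ)) (20 / 37) + τ) / (1 - θ)` and all but finitely many `n`, the inequality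
`h(x) + c < κ (cond(x) + cond(1/x) + cond(x - 1))` holds for ALL `x ∈ K`, `x ≠ 0, 1`, whose relative height
`H_K(x) = exp (d h(x))` satisfies `|H_K(x) - α v_n| ≤ v_n ^ θ`.
-/

set_option autoImplicit false

namespace Pool.Agent.Results.MP_f5a5f7_nt.HeightWindows

open NumberField IsDedekindDomain

/-- the exponent of convergence of the sequence `v` is at most `τ` -/
def ExpLe (v : ℕ → ℝ) (τ : ℝ) : Prop := ∀ t : ℝ, τ < t → Summable (fun n : ℕ => (v n) ^ (-t))

/-- the absolute logarithmic Weil height `h(x)` -/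
noncomputable def height {K : Type} [Field K] [NumberField K] (x : K) : ℝ :=
  (1 / (Module.finrank ℚ K : ℝ)) *
    ((∑ w : InfinitePlace K, (w.mult : ℝ) * Real.log (max 1 (w x))) +
      ∑ᶠ v : HeightOneSpectrum (RingOfIntegers K), Real.log (max 1 (FinitePlace.mk v x)))

/-- the conductor `cond(x)`: the sum of `log N(v) / [K : ℚ]` over the primes `v` at which `x` has a
positive valuation -/
noncomputable def cond {K : Type} [Field K] [NumberField K] (x : K) : ℝ :=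
  (1 / (Module.finrank ℚ K : ℝ)) *
    (∑ᶠ v : HeightOneSpectrum (RingOfIntegers K),
      (if FinitePlace.mk v x < 1 then Real.log (Ideal.absNorm v.asIdeal : ℝ) else 0))

/-- the exceptions to the inequality -/
def Exc (K : Type) [Field K] [NumberField K] (κ c : ℝ) : Set K :=
  {x : K | x ≠ 0 ∧ x ≠ 1 ∧ κ * (cond x + cond x⁻¹ + cond (x - 1)) ≤ height x + c}

lemma count (K : Type) [Field K] [NumberField K] (κ c : ℝ) (hκ : 1 < κ) (ε : ℝ) (hε : 0 < ε) :
    ∃ C : ℝ, ∀ X : ℝ, 1 ≤ X →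
      {x | x ∈ Exc K κ c ∧ Real.exp ((Module.finrank ℚ K : ℝ) * height x) ≤ X}.Finite ∧
      ({x | x ∈ Exc K κ c ∧ Real.exp ((Module.finrank ℚ K : ℝ) * height x) ≤ X}.ncard : ℝ) ≤
        C * X ^ (min (4 / (7 * κ)) (20 / 37) + ε) := by
  have hd : (0 : ℝ) < (Module.finrank ℚ K : ℝ) := by exact_mod_cast Module.finrank_pos
  set d : ℝ := (Module.finrank ℚ K : ℝ) with hd'
  obtain ⟨C, hC⟩ := FewExceptions.result K κ c (d * ε) hκ (by positivity)
  refine ⟨C, fun X hX => ?_⟩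
  have hX0 : 0 < X := by linarith
  have hB : 1 ≤ X ^ (1 / d) := Real.one_le_rpow hX (by positivity)
  obtain ⟨hfin, hcard⟩ := hC (X ^ (1 / d)) hB
  have hset : {x | x ∈ Exc K κ c ∧ Real.exp (d * height x) ≤ X} = FewExceptions.exceptional K κ c (X ^ (1 / d)) := by
    ext x
    have h1 : Real.exp (d * height x) ≤ X ↔ Real.exp (height x) ≤ X ^ (1 / d) := by
      rw [← Real.le_log_iff_exp_le hX0, ← Real.le_log_iff_exp_le (Real.rpow_pos_of_pos hX0 _), Real.log_rpow hX0]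
      rw [one_div, inv_mul_eq_div, le_div_iff₀ hd, mul_comm]
    constructor
    · rintro ⟨⟨h2, h3, h4⟩, h5⟩
      exact ⟨h2, h3, h1.1 h5, h4⟩
    · rintro ⟨h2, h3, h4, h5⟩
      exact ⟨⟨h2, h3, h5⟩, h1.2 h4⟩
  rw [hset]
  refine ⟨hfin, hcard.trans (le_of_eq ?_)⟩
  rw [← Real.rpow_mul hX0.le]
  congr 2
  rw [← hd']
  field_simp

/-- **Theorem.** Let `v ≥ 1` be a sequence of exponent of convergence at most `τ ≥ 0`, `0 ≤ θ < 1`, `K` a number field of
degree `d`, `κ > 1` and `c` real. There is a set `E` of Hausdorff dimension at most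
`(min (4 / (7 κ)) (20 / 37) + τ) / (1 - θ)` such that for each `α > 0` outside `E` and all but finitely many `n`,
`h(x) + c < κ (cond(x) + cond(1/x) + cond(x - 1))` for ALL `x ∈ K`, `x ≠ 0, 1`, with
`|exp (d h(x)) - α v_n| ≤ v_n ^ θ`. The sequences `v_n = (n + 1) ^ a` and `v_n = b ^ n` have exponent of convergence at
most `1 / a` and `0`. -/
theorem result :
    (∀ (K : Type) [Field K] [NumberField K] (κ c τ θ : ℝ) (v : ℕ → ℝ), 1 < κ → (∀ n, 1 ≤ v n) → 0 ≤ τ → ExpLe v τ →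
      0 ≤ θ → θ < 1 →
      ∃ E : Set ℝ, dimH E ≤ ENNReal.ofReal ((min (4 / (7 * κ)) (20 / 37) + τ) / (1 - θ)) ∧
        ∀ α : ℝ, 0 < α → α ∉ E → ∃ n₀ : ℕ, ∀ n : ℕ, n₀ ≤ n → ∀ x : K, x ≠ 0 → x ≠ 1 →
          |Real.exp ((Module.finrank ℚ K : ℝ) * height x) - α * v n| ≤ (v n) ^ θ →
            height x + c < κ * (cond x + cond x⁻¹ + cond (x - 1))) ∧
    (∀ a : ℝ, 0 < a → ExpLe (fun n : ℕ => ((n : ℝ) + 1) ^ a) (1 / a)) ∧
    (∀ b : ℝ, 1 < b → ExpLe (fun n : ℕ => b ^ n) 0) := by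
  refine ⟨fun K _ _ κ c τ θ v hκ hv hτ hE hθ hθ1 => ?_, fun κ hκ => Pool.Agent.Y854.GM.expLe_pow κ hκ,
    fun b hb => Pool.Agent.Y854.GM.expLe_geom b hb⟩
  obtain ⟨E, h2, h3⟩ := Pool.Agent.Y854.GM.windows (Exc K κ c)
    (fun x => Real.exp ((Module.finrank ℚ K : ℝ) * height x)) hv hτ hE
    (s := min (4 / (7 * κ)) (20 / 37)) (le_min (by positivity) (by norm_num)) hθ1 (count K κ c hκ)
  refine ⟨E, h2, fun α hα hαE => ?_⟩
  obtain ⟨n₀, hn⟩ := h3 α hα hαE
  refine ⟨n₀, fun n hn1 x hx0 hx1 hw => ?_⟩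
  by_contra hcon
  push Not at hcon
  exact absurd (hn n hn1 x ⟨hx0, hx1, hcon⟩) (not_lt.2 hw)

end Pool.Agent.Results.MP_f5a5f7_nt.HeightWindows
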